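import Pool.Agent.Helper99.PG.Num
import Pool.Agent.Helper81.PF.C2

/-!
Project TF (MP_b8862a_ag), block TF-E: an irreducible faithful module whose highest weight is a root of maximal length
has the dimension of the Lie algebra.
-/

set_option linter.unusedSectionVars false

open Module LieModule LieAlgebra LieAlgebra.IsKilling AddMonoidAlgebra MTP.MF PF PF.W PF.L

namespace TF

section lie

variable {K : Type*} [Field K] [CharZero K] [IsAlgClosed K]
  {L : Type*} [LieRing L] [LieAlgebra K L] [FiniteDimensional K L] [IsKilling K L]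
  {H : LieSubalgebra K L} [H.IsCartanSubalgebra]
  {V : Type*} [AddCommGroup V] [Module K V] [FiniteDimensional K V]
  [LieRingModule L V] [LieModule K L V] {I : Type*} [Fintype I]

private theorem adj_faith90 (_H : LieSubalgebra K L) (x : L) (hx : ∀ u : L, ⁅x, u⁆ = 0) : x = 0 := by
  have h1 : x ∈ LieAlgebra.center K L := by
    rw [LieModule.mem_maxTrivSubmodule]
    intro u
    rw [← lie_skew, hx u, neg_zero]
  have h2 : LieAlgebra.center K L = ⊥ := LieAlgebra.center_eq_bot K L
  rw [h2, LieSubmodule.mem_bot] at h1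
  exact h1

/-- Every root is a weight of the adjoint module. -/
private theorem exists_adj90 (B' : WB (V := L) H I) (α : H.root) : ∃ i, B'.w i = (rootSystem H).root α := by
  obtain ⟨x, hx, hx0⟩ := α.1.exists_ne_zero
  have h1 : ∀ h : H, ⁅(h : L), x⁆ = α.1 h • x := fun h => lie_root hx h
  have h2 : ∃ i, B'.v.repr x i ≠ 0 := by
    by_contra hcon
    push Not at hcon
    exact hx0 (by rw [← B'.v.sum_repr x]; exact Finset.sum_eq_zero fun i _ => by rw [hcon i, zero_smul])
  obtain ⟨i, hi⟩ := h2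
  refine ⟨i, ?_⟩
  ext h
  exact B'.coord (h1 h) hi

private theorem rho_ne90 (b : (rootSystem H).Base) : ∏ α ∈ pos b, rho b (coroot α.1) ≠ 0 := by
  classical
  rw [Finset.prod_ne_zero_iff]
  intro α hα
  have hp : b.IsPos α := by simpa [pos] using hα
  obtain ⟨f, hf, hf'⟩ := coroot_eq_sum b hp
  have h1 : rho b (coroot α.1) = ((∑ j ∈ b.support, f j : ℕ) : K) := by
    have h2 : coroot α.1 = ∑ j ∈ b.support, (f j : K) • coroot j.1 := hf
    rw [h2, map_sum, Nat.cast_sum]
    refine Finset.sum_congr rfl fun j hj => ?_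
    have : rho b (coroot j.1) = 1 := rho_coroot b hj
    rw [map_smul, this, smul_eq_mul, mul_one]
  rw [h1]
  exact_mod_cast hf'.ne'

/-- A dominant root is determined by its length if it is not shorter than a root above it. -/
private theorem eq_of_below90 [(rootSystem H).IsIrreducible] (b : (rootSystem H).Base) {α β : H.root}
    (hα : ∀ j ∈ b.support, ∃ k : ℕ, (rootSystem H).root α (coroot j.1) = (k : K))
    (hb : Below b ((rootSystem H).root β) ((rootSystem H).root α))
    (hmax : (inner ℝ (PF.CC.vec (PF.CC.rt (rootSystem H) β)) (PF.CC.vec (PF.CC.rt (rootSystem H) β)) : ℝ) ≤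
      inner ℝ (PF.CC.vec (PF.CC.rt (rootSystem H) α)) (PF.CC.vec (PF.CC.rt (rootSystem H) α))) : α = β := by
  classical
  obtain ⟨κ, hκ⟩ := hb
  -- the integral form
  have h1 : ∀ j, PF.CC.rt (rootSystem H) α j = PF.CC.rt (rootSystem H) β j -
      ∑ i ∈ b.support, (κ i : ℤ) * PF.CC.rt (rootSystem H) i j := by
    intro j
    have h2 := congrArg (fun f : Dual K H => f (coroot j.1)) hκ
    simp only [LinearMap.sub_apply, LinearMap.sum_apply, LinearMap.smul_apply, smul_eq_mul] at h2
    have e1 : ∀ i : H.root, (rootSystem H).root i (coroot j.1) = (PF.CC.rt (rootSystem H) i j : K) := fun i =>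
      PF.CC.rt_spec i j
    rw [e1, e1, Finset.sum_congr rfl fun i _ => by rw [e1 i]] at h2
    have h3 : ((PF.CC.rt (rootSystem H) α j : ℤ) : K) = ((PF.CC.rt (rootSystem H) β j -
      ∑ i ∈ b.support, (κ i : ℤ) * PF.CC.rt (rootSystem H) i j : ℤ) : K) := by
      rw [h2]
      push_cast
      rfl
    exact_mod_cast h3
  -- dominance
  have hd : ∀ γ : H.root, (∀ j ∈ b.support, ∃ k : ℕ, (rootSystem H).root γ (coroot j.1) = (k : K)) →
      ∀ i ∈ b.support, 0 ≤ ∑ j, PF.CC.rt (rootSystem H) γ j * PF.CC.rt (rootSystem H) i j := by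
    intro γ hγ i hi
    obtain ⟨k, hk⟩ := hγ i hi
    have e1 : (rootSystem H).root γ (coroot i.1) = (PF.CC.rt (rootSystem H) γ i : K) := PF.CC.rt_spec γ i
    rw [e1] at hk
    have h2 : PF.CC.rt (rootSystem H) γ i = (k : ℤ) := by exact_mod_cast hk
    have h3 := PF.CC.two_sum (rootSystem H) (PF.CC.wt_rt (rootSystem H) γ) i
    have h4 := PF.CC.sum_pos (rootSystem H) i
    rw [h2] at h3
    have h5 : (0 : ℤ) ≤ (k : ℤ) * ∑ j, PF.CC.rt (rootSystem H) i j * PF.CC.rt (rootSystem H) i j :=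
      mul_nonneg (by positivity) h4.le
    omega
  obtain ⟨u, hu⟩ : ∃ u : H.root → ℤ, u = fun j => ∑ i ∈ b.support, (κ i : ℤ) * PF.CC.rt (rootSystem H) i j := ⟨_, rfl⟩
  have hux : ∀ γ : H.root, (∀ j ∈ b.support, ∃ k : ℕ, (rootSystem H).root γ (coroot j.1) = (k : K)) →
      0 ≤ ∑ j, PF.CC.rt (rootSystem H) γ j * u j := by
    intro γ hγ
    have e1 : ∑ j, PF.CC.rt (rootSystem H) γ j * u j = ∑ i ∈ b.support, (κ i : ℤ) *
        ∑ j, PF.CC.rt (rootSystem H) γ j * PF.CC.rt (rootSystem H) i j := by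
      rw [hu]
      simp only [Finset.mul_sum]
      rw [Finset.sum_comm]
      refine Finset.sum_congr rfl fun i _ => Finset.sum_congr rfl fun j _ => ?_
      ring
    rw [e1]
    exact Finset.sum_nonneg fun i hi => mul_nonneg (by positivity) (hd γ hγ i hi)
  have h2 : ∀ j, PF.CC.rt (rootSystem H) β j = PF.CC.rt (rootSystem H) α j + u j := by
    intro j
    rw [h1 j, hu]
    ring
  rw [PF.CC.inner_vec, PF.CC.inner_vec] at hmax
  have h3 : ∑ j, PF.CC.rt (rootSystem H) β j * PF.CC.rt (rootSystem H) β j ≤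
      ∑ j, PF.CC.rt (rootSystem H) α j * PF.CC.rt (rootSystem H) α j := by exact_mod_cast hmax
  have h4 : ∑ j, PF.CC.rt (rootSystem H) β j * PF.CC.rt (rootSystem H) β j =
      ∑ j, PF.CC.rt (rootSystem H) α j * PF.CC.rt (rootSystem H) α j + 2 * ∑ j, PF.CC.rt (rootSystem H) α j * u j +
      ∑ j, u j * u j := by
    rw [Finset.mul_sum, ← Finset.sum_add_distrib, ← Finset.sum_add_distrib]
    refine Finset.sum_congr rfl fun j _ => ?_
    rw [h2 j]
    ring
  have h5 := hux α hα
  have h6 : ∑ j, u j * u j ≤ 0 := by omega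
  have h7 : ∀ j ∈ Finset.univ, u j * u j = 0 :=
    (Finset.sum_eq_zero_iff_of_nonneg fun j _ => mul_self_nonneg (u j)).1
      (le_antisymm h6 (Finset.sum_nonneg fun j _ => mul_self_nonneg (u j)))
  refine PF.CC.rt_inj (rootSystem H) (funext fun j => ?_)
  rw [h2 j, mul_self_eq_zero.1 (h7 j (Finset.mem_univ j)), add_zero]

theorem card_adj (B : WB (V := V) H I) [Nonempty I] [Nonempty H.root] [(rootSystem H).IsIrreducible] [IsSimple K L]
    (hirr : ∀ W : Submodule K V, (∀ x : L, ∀ u ∈ W, ⁅x, u⁆ ∈ W) → W = ⊥ ∨ W = ⊤)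
    (hfaith : ∀ x : L, (∀ u : V, ⁅x, u⁆ = 0) → x = 0) (b : (rootSystem H).Base) {t : I}
    (hb : ∀ i, Below b (B.w t) (B.w i)) (hr : PF.CC.vec (PF.CC.wt B t) ∈ PF.CC.Ph (rootSystem H))
    (hmax : ∀ a ∈ PF.CC.Ph (rootSystem H), (inner ℝ a a : ℝ) ≤
      inner ℝ (PF.CC.vec (PF.CC.wt B t)) (PF.CC.vec (PF.CC.wt B t))) :
    Fintype.card I = finrank K L := by
  classical
  obtain ⟨t1, ht1, hd1, ht3⟩ := dimension B hirr hfaith b
  have e1 : B.w t1 = B.w t := Below.antisymm (hb t1) (ht1 t)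
  rw [e1] at hd1 ht3
  -- the top weight is a root
  obtain ⟨α, hα⟩ := (PF.CC.mem_Ph _).1 hr
  have hα' : (rootSystem H).root α = B.w t := by
    apply PF.CC.dual_ext
    intro γ
    have h1 : (rootSystem H).root α (coroot γ.1) = (PF.CC.rt (rootSystem H) α γ : K) := PF.CC.rt_spec α γ
    rw [h1, PF.CC.wt_spec, PF.CC.vec_inj hα]
  -- the adjoint module
  obtain ⟨n', ⟨B'⟩⟩ := exists_WB (V := L) (H := H) (PG.L.adj_irr (K := K) (L := L))
  have hcard' : n' = finrank K L := by
    have := finrank_eq_card_basis B'.v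
    rw [this, Fintype.card_fin]
  obtain ⟨i1, hi1⟩ := exists_adj90 B' α
  have hI' : Nonempty (Fin n') := ⟨i1⟩
  obtain ⟨t', ht1', -, ht3'⟩ := dimension B' (PG.L.adj_irr (K := K) (L := L)) (adj_faith90 H) b
  have hbelow : ∀ γ : H.root, Below b (B'.w t') ((rootSystem H).root γ) := by
    intro γ
    obtain ⟨i, hi⟩ := exists_adj90 B' γ
    rw [← hi]
    exact ht1' i
  have e3 : B'.w t' = B.w t := by
    rcases PG.L.adj_w B' t' with h | ⟨β, hβ⟩
    · exfalso
      have h1 : ∀ γ : H.root, ¬ b.IsPos γ := by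
        intro γ hγ
        obtain ⟨κ, hκ⟩ := hbelow γ
        rw [h, zero_sub] at hκ
        have h2 : (rootSystem H).root γ = ∑ j ∈ b.support, (-(κ j : ℤ)) • (rootSystem H).root j := by
          rw [hκ, ← Finset.sum_neg_distrib]
          refine Finset.sum_congr rfl fun j _ => ?_
          rw [neg_smul, natCast_zsmul, Nat.cast_smul_eq_nsmul]
        have h3 := b.height_eq_sum h2
        rw [RootPairing.Base.isPos_iff, h3] at hγ
        have h4 : ∑ j ∈ b.support, -(κ j : ℤ) ≤ 0 := Finset.sum_nonpos fun j _ => by simp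
        omega
      have h5 := (RootPairing.Base.IsPos.neg_iff_not b α).2 (h1 α)
      exact h1 _ h5
    · rw [hβ] at hbelow ⊢
      rw [← hα'] at hd1 ⊢
      have h1 : α = β := by
        refine eq_of_below90 b hd1 (hbelow α) ?_
        rw [hα]
        exact hmax _ ((PF.CC.mem_Ph _).2 ⟨β, rfl⟩)
      rw [h1]
  rw [e3, ← ht3, Fintype.card_fin] at ht3'
  have h5 := mul_right_cancel₀ (rho_ne90 b) ht3'
  rw [← hcard']
  exact_mod_cast h5.symm

end lie

end TF
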